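import Pool.Agent.R231.SC.Pos2
import Pool.Agent.R231.SC.Para

/-!
MP_d2274e: functions semiconvex and semiconcave with modulus on cone-free convex sets.

(c), (d): yes, for every unbounded open convex cone-free `G ⊆ ℝⁿ`, `n ≥ 2`, and every `0 < α < 1`.
(a), (b): no in general: there is a concave modulus `ω` with `ω(t)/t → 1` at `0+` and
`ω(t)/t → 0` at `∞` such that in every dimension `n ≥ 2` there is an unbounded open convex
cone-free `G` on which every `f` that is `ω`-semiconvex and `ω`-semiconcave is in `C^{1,ω}(G)`.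
-/

namespace Pool.Agent.Results.MP_d2274e_an.SemiBoth

open Set Filter Topology Pool.Agent.R231.SC

theorem result :
    (∀ n : ℕ, 2 ≤ n → ∀ G : Set (EuclideanSpace ℝ (Fin n)), IsOpen G → Convex ℝ G →
      ¬ Bornology.IsBounded G → ConeFree G → ∀ α : ℝ, 0 < α → α < 1 →
      ∃ f : EuclideanSpace ℝ (Fin n) → ℝ, Semiconvex G (fun t => t ^ α) f ∧
        Semiconcave G (fun t => t ^ α) f ∧ ¬ InC1 G (fun t => t ^ α) f) ∧
    (∃ ω : ℝ → ℝ, IsModulus ω ∧ ConcaveOn ℝ (Ici 0) ω ∧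
      Tendsto (fun t => ω t / t) (𝓝[>] 0) (𝓝 1) ∧ Tendsto (fun t => ω t / t) atTop (𝓝 0) ∧
      ∀ n : ℕ, 2 ≤ n → ∃ G : Set (EuclideanSpace ℝ (Fin n)), IsOpen G ∧ Convex ℝ G ∧
        ¬ Bornology.IsBounded G ∧ ConeFree G ∧
        ∀ f : EuclideanSpace ℝ (Fin n) → ℝ, Semiconvex G ω f → Semiconcave G ω f →
          InC1 G ω f) := by
  refine ⟨fun n _ G hG hc hb hcf α h0 h1 => pos_main hG hc hb hcf h0 h1, ww, ww_modulus,
    ww_concave, ww_div_zero, ww_div_top, ?_⟩
  intro n hn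
  set e : EuclideanSpace ℝ (Fin n) := EuclideanSpace.single ⟨0, by omega⟩ (1 : ℝ) with he
  set u : EuclideanSpace ℝ (Fin n) := EuclideanSpace.single ⟨1, by omega⟩ (1 : ℝ) with hu
  have he1 : ‖e‖ = 1 := by rw [he]; simp
  have hu1 : ‖u‖ = 1 := by rw [hu]; simp
  have heu : inner ℝ e u = 0 := by
    rw [he, hu, EuclideanSpace.inner_single_left]
    simp
  exact ⟨para e, para_open e, para_convex e, para_unbounded he1, para_conefree he1 hu1 heu,
    fun f h1 h2 => neg_main he1 f h1 h2⟩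

end Pool.Agent.Results.MP_d2274e_an.SemiBoth
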